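import Pool.Agent.L0h86.XF.Stm
import Pool.Agent.L0h74.EV.BAD
import Pool.Agent.L0h74.E3.BAD

/-!
# Project XF: few sets have degenerate labels
-/

set_option autoImplicit false

open scoped Classical

namespace Pool.Agent.L0h61.XF

open Finset Pool.Agent.L0h86.XF
open Pool.Agent.Y703.CX (sm la zz kk)

theorem mF_false (p : ℕ) : mF false p = Pool.Agent.N973.ND.m7 p := rfl

theorem mF_true (p : ℕ) : mF true p = Pool.Agent.L0h74.T3.m3 p := rfl

theorem ty_false (p : ℕ) : ty false p = Pool.Agent.N973.ND.ty p := rfl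

theorem ty_true (p : ℕ) : ty true p = Pool.Agent.L0h74.T3.ty p := rfl

theorem SAF_false (X : ℕ) : SAF false X = Pool.Agent.N973.ND.SA X := rfl

theorem SAF_true (X : ℕ) : SAF true X = Pool.Agent.L0h74.T3.SA X := rfl

theorem NdE_false (S₀ S₁ : Finset ℕ) : NdE false S₀ S₁ = Pool.Agent.L0h74.EV.NdE S₀ S₁ := rfl

theorem NdE_true (S₀ S₁ : Finset ℕ) : NdE true S₀ S₁ = Pool.Agent.L0h74.E3.NdE S₀ S₁ := rfl

/-- **S_BADX** -/
theorem t_BADX : S_BADX := by
  intro f ε hε
  cases f with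
  | false => exact Pool.Agent.L0h74.EV.BAD.t_BADE ε hε
  | true => exact Pool.Agent.L0h74.E3.BAD.t_BADE ε hε

end Pool.Agent.L0h61.XF
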