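import Pool.Agent.L0h86.XF.Stm
import Pool.Agent.L0h61.XF.BAD
import Pool.Agent.N973.ND.LA2

/-!
# Project XF: `kd` is not negative for the good systems
-/

set_option autoImplicit false

open scoped Classical

namespace Pool.Agent.L0h61.XF

open Finset Pool.Agent.L0h86.XF
open Pool.Agent.N973.ND (card_Z m7_le)
open Pool.Agent.L0h74.T3 (m3_le)

theorem mF_le (f : Bool) (p : ℕ) : mF f p ≤ 1 := by
  unfold mF
  split_ifs
  · exact m3_le p
  · exact m7_le p

/-- the cases of the type of a prime -/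
theorem ty_cases (f : Bool) (p : ℕ) :
    (ty f p = 0 ∧ mF f p = 0 ∧ p % 4 ≠ 3) ∨ (ty f p = 1 ∧ mF f p = 0 ∧ p % 4 = 3) ∨
      (ty f p = 2 ∧ mF f p = 1 ∧ p % 4 ≠ 3) ∨ (ty f p = 3 ∧ mF f p = 1 ∧ p % 4 = 3) := by
  have h := mF_le f p
  have h2 : mF f p = 0 ∨ mF f p = 1 := by omega
  unfold ty
  by_cases h4 : p % 4 = 3
  · rw [if_pos h4]
    rcases h2 with h3 | h3 <;> rw [h3] <;> simp [h4]
  · rw [if_neg h4]
    rcases h2 with h3 | h3 <;> rw [h3] <;> simp [h4]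

/-- the cases of the type -/
theorem tyO_cases {d : Dt} (ht : d.t < 4) (x : Option ℕ) :
    (tyO d x = 0 ∧ mO d x = 0) ∨ (tyO d x = 1 ∧ mO d x = 0) ∨
      (tyO d x = 2 ∧ mO d x = 1) ∨ (tyO d x = 3 ∧ mO d x = 1) := by
  rcases x with _ | p
  · show (d.t = 0 ∧ d.t / 2 = 0) ∨ (d.t = 1 ∧ d.t / 2 = 0) ∨ (d.t = 2 ∧ d.t / 2 = 1) ∨
      (d.t = 3 ∧ d.t / 2 = 1)
    omega
  · show (ty d.f p = 0 ∧ mF d.f p = 0) ∨ (ty d.f p = 1 ∧ mF d.f p = 0) ∨
      (ty d.f p = 2 ∧ mF d.f p = 1) ∨ (ty d.f p = 3 ∧ mF d.f p = 1)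
    rcases ty_cases d.f p with h | h | h | h
    · exact Or.inl ⟨h.1, h.2.1⟩
    · exact Or.inr (Or.inl ⟨h.1, h.2.1⟩)
    · exact Or.inr (Or.inr (Or.inl ⟨h.1, h.2.1⟩))
    · exact Or.inr (Or.inr (Or.inr ⟨h.1, h.2.1⟩))

/-- the sum over all the primes of a system -/
theorem sum_SW {M : Type} [AddCommMonoid M] {s : Sy} {S : Finset ℕ}
    (hdis : ∀ v ∈ S, some v ∉ s.W) (f : Option ℕ → M) :
    ∑ v : SW s S, f v = ∑ u ∈ S, f (some u) + ∑ v ∈ s.W, f v := by
  rw [Finset.sum_coe_sort (SW s S) f]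
  unfold SW
  rw [sum_union, sum_image fun a _ b _ h => Option.some_injective _ h]
  rw [disjoint_left]
  intro x hx
  obtain ⟨v, hv, rfl⟩ := mem_image.1 hx
  exact hdis v hv

/-- **S_NEGX** -/
theorem t_NEGX : S_NEGX := by
  intro s S ht hdis hG
  obtain ⟨h1, -⟩ := hG
  have h2 := card_Z h1
  set Sp := univ.filter fun i : SW s S => mO s.d (i : Option ℕ) = 1 with hSp
  set Pc := univ.filter fun i : SW s S => tyO s.d (i : Option ℕ) = 2 ∨
    tyO s.d (i : Option ℕ) = 1 with hPc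
  have h3 : Pc.card ≤ Sp.card := by
    by_contra hc
    push Not at hc
    have h4 : 2 ^ Sp.card < 2 ^ Pc.card := Nat.pow_lt_pow_right (by norm_num) hc
    have h5 : 0 < 2 ^ Sp.card := by positivity
    rw [← h2] at h5 h4
    have h7 := Nat.le_mul_of_pos_left (2 ^ Pc.card) (pos_of_mul_pos_left h5 (Nat.zero_le _))
    exact absurd h7 (not_le.2 h4)
  have key : ∀ x : Option ℕ, (if mO s.d x = 1 then (1 : ℤ) else 0) -
      (if tyO s.d x = 2 ∨ tyO s.d x = 1 then 1 else 0) =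
      (if tyO s.d x = 3 then 1 else 0) - (if tyO s.d x = 1 then 1 else 0) := by
    intro x
    rcases tyO_cases ht x with h | h | h | h <;> rw [h.1, h.2] <;> simp
  have h5 : (Sp.card : ℤ) - (Pc.card : ℤ) = kd s.d.f S + kW s := by
    rw [hSp, hPc, card_filter, card_filter]
    push_cast
    rw [← sum_sub_distrib]
    refine Eq.trans (sum_congr (s₁ := (univ : Finset (SW s S))) rfl
      fun i _ => key (i : Option ℕ)) ?_
    refine (sum_SW (M := ℤ) hdis fun v => ((if tyO s.d v = 3 then (1 : ℤ) else 0) -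
        (if tyO s.d v = 1 then 1 else 0))).trans ?_
    unfold kd kW
    rw [card_filter, card_filter, card_filter, card_filter]
    push_cast
    rw [← sum_sub_distrib, ← sum_sub_distrib]
    rfl
  omega

end Pool.Agent.L0h61.XF
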