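import Pool.Agent.L0h86.XF.Stm
import Pool.Agent.L0h2.P.CLS
import Pool.Agent.L0h61.XF.NEG

/-!
# Project XF: the separating classes for the prime `3`
-/

set_option autoImplicit false

open scoped Classical

namespace Pool.Agent.L0h61.XF

open Finset Pool.Agent.L0h86.XF
open Pool.Agent.Y703.CQ (nr)
open Pool.Agent.L0h74.EV (n2)
open Pool.Agent.L0h2.P (nonres)

/-- the chinese remainder theorem -/
theorem crt {u e : ℕ} (hu : 0 < u) (h7 : 7 ∣ u) (he : 0 < e) (h2 : 2 ^ e ∣ u) (am : ℕ → ℕ)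
    (ha : ∀ p ∈ u.primeFactors, ¬ p ∣ am p) :
    ∃ c : ℕ, c < 7 * u ∧ c.Coprime (7 * u) ∧ ∀ q, q % (7 * u) = c →
      q % 2 ^ e = am 2 % 2 ^ e ∧ ∀ p ∈ u.primeFactors, p ≠ 2 → q % p = am p % p := by
  set sm : ℕ → ℕ := fun p => if p = 2 then 2 ^ e else p with hsm
  have hpr : ∀ p ∈ u.primeFactors, p.Prime := fun p hp => Nat.prime_of_mem_primeFactors hp
  obtain ⟨k, hk⟩ := Nat.chineseRemainderOfFinset am sm u.primeFactors (by
    intro p hp
    simp only [hsm]
    split_ifs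
    · positivity
    · exact (hpr p hp).ne_zero) (by
    intro p hp q hq hpq
    have h1 := hpr p (mem_coe.1 hp)
    have h2 := hpr q (mem_coe.1 hq)
    have h3 : ∀ a : ℕ, a.Prime → a ≠ 2 → Nat.Coprime (2 ^ e) a := fun a ha ha2 =>
      Nat.Coprime.pow_left e ((Nat.coprime_primes Nat.prime_two ha).2 fun h => ha2 h.symm)
    show Nat.Coprime (sm p) (sm q)
    simp only [hsm]
    split_ifs with h4 h5 h5
    · exact absurd (h4.trans h5.symm) hpq
    · exact h3 q h2 h5
    · exact (h3 p h1 h4).symm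
    · exact (Nat.coprime_primes h1 h2).2 hpq)
  have h2u : 2 ∣ u := (dvd_pow_self 2 he.ne').trans h2
  have hdm : ∀ p ∈ u.primeFactors, sm p ∣ 7 * u := by
    intro p hp
    simp only [hsm]
    split_ifs
    · exact Dvd.dvd.mul_left h2 7
    · exact Dvd.dvd.mul_left (Nat.dvd_of_mem_primeFactors hp) 7
  have hmem2 : 2 ∈ u.primeFactors := Nat.mem_primeFactors.2 ⟨Nat.prime_two, h2u, hu.ne'⟩
  have key : ∀ q : ℕ, q % (7 * u) = k % (7 * u) → ∀ p ∈ u.primeFactors, q % sm p = am p % sm p := by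
    intro q hq p hp
    have h1 := hk p hp
    have h2 : q ≡ k [MOD (7 * u)] := hq
    exact (h2.of_dvd (hdm p hp)).trans h1
  have k2 : ∀ q : ℕ, q % (7 * u) = k % (7 * u) → q % 2 ^ e = am 2 % 2 ^ e := by
    intro q hq
    have h1 := key q hq 2 hmem2
    simp only [hsm, if_true] at h1
    exact h1
  have kp : ∀ q : ℕ, q % (7 * u) = k % (7 * u) → ∀ p ∈ u.primeFactors, p ≠ 2 →
      q % p = am p % p := by
    intro q hq p hp hp2
    have h1 := key q hq p hp
    simp only [hsm, if_neg hp2] at h1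
    exact h1
  have h7u : 0 < 7 * u := by omega
  refine ⟨k % (7 * u), Nat.mod_lt _ h7u, ?_, fun q hq => ⟨k2 q hq, kp q hq⟩⟩
  rw [Nat.coprime_iff_gcd_eq_one]
  by_contra hne
  obtain ⟨p, hp, hd⟩ := Nat.exists_prime_and_dvd hne
  have h1 := hd.trans (Nat.gcd_dvd_left _ _)
  have h2' := hd.trans (Nat.gcd_dvd_right _ _)
  have h3 : p ∣ u := by
    rcases (Nat.Prime.dvd_mul hp).1 h2' with h | h
    · rw [(Nat.prime_dvd_prime_iff_eq hp (by norm_num)).1 h]
      exact h7
    · exact h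
  have hmem : p ∈ u.primeFactors := Nat.mem_primeFactors.2 ⟨hp, h3, hu.ne'⟩
  have hself : (k % (7 * u)) % (7 * u) = k % (7 * u) := Nat.mod_mod _ _
  apply ha p hmem
  by_cases hp2 : p = 2
  · subst hp2
    have h4 : k % (7 * u) ≡ am 2 [MOD 2 ^ e] := k2 _ hself
    exact (h4.of_dvd (dvd_pow_self 2 he.ne')).dvd_iff (dvd_refl 2) |>.1 h1
  · have h4 : k % (7 * u) ≡ am p [MOD p] := kp _ hself p hmem hp2
    exact (h4.dvd_iff (dvd_refl p)).1 h1

/-- **S_CSX** -/
theorem t_CSX : S_CSX := by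
  intro u h84 hu0
  have h7 : 7 ∣ u := (by norm_num : 7 ∣ 84).trans h84
  have hmem3 : 3 ∈ u.primeFactors := Nat.mem_primeFactors.2
    ⟨by norm_num, (by norm_num : 3 ∣ 84).trans h84, hu0.ne'⟩
  have hmem7 : 7 ∈ u.primeFactors := Nat.mem_primeFactors.2 ⟨by norm_num, h7, hu0.ne'⟩
  obtain ⟨c, hc1, hc2, hc3⟩ := crt (e := 2) hu0 h7 (by norm_num)
    ((by norm_num : 2 ^ 2 ∣ 84).trans h84) (fun p => if p = 3 then 2 else 1) (by
      intro p hp
      have h1 := Nat.prime_of_mem_primeFactors hp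
      show ¬ p ∣ (if p = 3 then 2 else 1)
      split_ifs with h
      · rw [h]; norm_num
      · exact h1.one_lt.ne' ∘ Nat.dvd_one.1)
  refine ⟨c, hc1, hc2, fun q _ hqc => ?_⟩
  obtain ⟨k2, kp⟩ := hc3 q hqc
  have k3 := kp 3 hmem3 (by norm_num)
  have k7 := kp 7 hmem7 (by norm_num)
  norm_num at k2 k3 k7
  constructor
  · rw [ty_false, Pool.Agent.N973.ND.ty, Pool.Agent.N973.ND.m7, if_pos (Or.inl k7), if_neg (by omega)]
  · rw [ty_true, Pool.Agent.L0h74.T3.ty, Pool.Agent.L0h74.T3.m3, if_neg (by omega),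
      if_neg (by omega)]

/-- **S_CLS3** -/
theorem t_CLS3 : S_CLS3 := by
  intro u h168 hu0 r hr
  obtain ⟨ν, hν⟩ : ∃ ν : ℕ, r ≠ 2 → ¬ IsSquare ((ν : ℕ) : ZMod r) := by
    by_cases h : r = 2
    · exact ⟨0, fun h' => absurd h h'⟩
    · rcases hr with hr | hr
      · exact absurd hr h
      · obtain ⟨ν, hν⟩ := nonres hr.1.1 h
        exact ⟨ν, fun _ => hν⟩
  have hr3 : r ≠ 3 := by
    rcases hr with hr | hr
    · rw [hr]; norm_num
    · exact hr.1.2.2
  have h7 : 7 ∣ u := (by norm_num : 7 ∣ 168).trans h168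
  have hmem3 : 3 ∈ u.primeFactors := Nat.mem_primeFactors.2
    ⟨by norm_num, (by norm_num : 3 ∣ 168).trans h168, hu0.ne'⟩
  obtain ⟨c, hc1, hc2, hc3⟩ := crt (e := 3) hu0 h7 (by norm_num)
    ((by norm_num : 2 ^ 3 ∣ 168).trans h168)
    (fun p => if p = 2 then (if r = 2 then 5 else 1) else if p = r then ν else 1) (by
      intro p hp
      have h1 := Nat.prime_of_mem_primeFactors hp
      show ¬ p ∣ (if p = 2 then (if r = 2 then 5 else 1) else if p = r then ν else 1)
      by_cases h : p = 2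
      · rw [if_pos h, h]
        split_ifs <;> norm_num
      · rw [if_neg h]
        by_cases h3 : p = r
        · rw [if_pos h3]
          intro hd
          apply hν (fun h' => h (h3.trans h'))
          rw [h3] at hd
          rw [(ZMod.natCast_eq_zero_iff ν r).2 hd]
          exact ⟨0, by simp⟩
        · rw [if_neg h3]
          exact h1.one_lt.ne' ∘ Nat.dvd_one.1)
  refine ⟨c, hc1, hc2, fun q hq hqc => ?_⟩
  obtain ⟨k2, kp⟩ := hc3 q hqc
  have k3 := kp 3 hmem3 (by norm_num)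
  simp only [if_true, if_neg (show (3 : ℕ) ≠ 2 by norm_num), if_neg hr3.symm] at k2 k3
  have e8 : q % 8 = if r = 2 then 5 else 1 := by
    have e : (2 : ℕ) ^ 3 = 8 := by norm_num
    rw [e] at k2
    rw [k2]
    split_ifs <;> norm_num
  refine ⟨?_, ?_, ?_⟩
  · rw [ty_true, Pool.Agent.L0h74.T3.ty, Pool.Agent.L0h74.T3.m3, if_pos (by omega),
      if_neg (by split_ifs at e8 <;> omega)]
  · intro r' hr' hru
    have hmem : r' ∈ u.primeFactors := Nat.mem_primeFactors.2 ⟨hr'.1, hru, hu0.ne'⟩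
    have h1 := kp r' hmem hr'.2.1
    simp only [if_neg hr'.2.1] at h1
    by_cases hrr : r' = r
    · rw [if_pos hrr] at h1 ⊢
      have h2 : ((q : ℕ) : ZMod r') = (ν : ℕ) := by
        rw [ZMod.natCast_eq_natCast_iff]
        exact h1
      unfold nr
      rw [h2, if_neg]
      have h3 := hν (fun h => hr'.2.1 (hrr.trans h))
      rw [← hrr] at h3
      exact h3
    · rw [if_neg hrr] at h1 ⊢
      have h2 : ((q : ℕ) : ZMod r') = (1 : ℕ) := by
        rw [ZMod.natCast_eq_natCast_iff]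
        exact h1
      unfold nr
      rw [h2, if_pos]
      exact ⟨1, by simp⟩
  · unfold n2
    by_cases h2 : r = 2
    · rw [if_pos h2] at e8 ⊢
      rw [if_pos (Or.inr e8)]
    · rw [if_neg h2] at e8 ⊢
      rw [if_neg (by omega)]

end Pool.Agent.L0h61.XF
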