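import Pool.Agent.L0h86.XF.Stm
import Pool.Agent.L0h2.P.FEWJ
import Pool.Agent.L0h61.XF.NEG

/-!
# Project XF: few sets have few large primes in a class
-/

set_option autoImplicit false

open scoped Classical

namespace Pool.Agent.L0h61.XF

open Finset Pool.Agent.L0h86.XF
open Pool.Agent.L0h2.P (PT mem_PT fewG)
open Pool.Agent.L0h74.KD.FEW (mer Pa)

/-- the logarithmic sums of the types `3` and `1` -/
theorem few_bd (f : Bool) : ∃ Cb : ℝ, ∀ y : ℕ, 3 ≤ y →
    ∑ p ∈ PT (fun p => ty f p = 3) y, (1 : ℝ) / p - ∑ p ∈ PT (fun p => ty f p = 1) y, (1 : ℝ) / p ≤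
      Cb := by
  have nn : ∀ p : ℕ, (0 : ℝ) ≤ 1 / p := fun p => by positivity
  cases f with
  | false =>
    obtain ⟨C, hC0, hC⟩ := mer
    refine ⟨2 * C, fun y hy => ?_⟩
    have h1 := (abs_le.1 (hC 1 (by norm_num) y hy)).1
    have h3 := (abs_le.1 (hC 3 (by norm_num) y hy)).2
    have e3 : ∑ p ∈ PT (fun p => ty false p = 3) y, (1 : ℝ) / p ≤ ∑ p ∈ Pa 3 0 y, (1 : ℝ) / p := by
      refine sum_le_sum_of_subset_of_nonneg ?_ fun p _ _ => nn p
      intro p hp
      rw [mem_PT] at hp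
      obtain ⟨k1, k2, k3⟩ := hp
      rw [Pa, mem_filter, mem_range]
      have k4 : Pool.Agent.N973.ND.ty p = 3 := k3
      refine ⟨by omega, ⟨⟨k2, ?_, ?_⟩, k4⟩, by omega⟩
      · rintro rfl
        norm_num [Pool.Agent.N973.ND.ty, Pool.Agent.N973.ND.m7] at k4
      · rintro rfl
        norm_num [Pool.Agent.N973.ND.ty, Pool.Agent.N973.ND.m7] at k4
    have e1 : ∑ p ∈ Pa 1 0 y, (1 : ℝ) / p ≤ ∑ p ∈ PT (fun p => ty false p = 1) y, (1 : ℝ) / p := by
      refine sum_le_sum_of_subset_of_nonneg ?_ fun p _ _ => nn p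
      intro p hp
      rw [Pa, mem_filter, mem_range] at hp
      obtain ⟨k1, ⟨k2, k3⟩, k4⟩ := hp
      rw [mem_PT]
      exact ⟨⟨by omega, by omega⟩, k2.1, k3⟩
    linarith
  | true =>
    obtain ⟨C7, hC7, h7⟩ := Pool.Agent.Y405.CQ.mertens_ap 12 (by norm_num) 7 (by norm_num)
      (by norm_num)
    obtain ⟨C11, hC11, h11⟩ := Pool.Agent.Y405.CQ.mertens_ap 12 (by norm_num) 11 (by norm_num)
      (by norm_num)
    refine ⟨C7 + C11, fun y hy => ?_⟩
    have h1 := (abs_le.1 (h11 y hy)).1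
    have h3 := (abs_le.1 (h7 y hy)).2
    have e3 : ∑ p ∈ PT (fun p => ty true p = 3) y, (1 : ℝ) / p ≤
        ∑ p ∈ (Icc 1 y).filter (fun p => p.Prime ∧ p % 12 = 7), (1 : ℝ) / p := by
      refine sum_le_sum_of_subset_of_nonneg ?_ fun p _ _ => nn p
      intro p hp
      rw [mem_PT] at hp
      obtain ⟨k1, k2, k3⟩ := hp
      rw [mem_filter, mem_Icc]
      refine ⟨k1, k2, ?_⟩
      rcases ty_cases true p with h | h | h | h
      · rw [h.1] at k3; exact absurd k3 (by norm_num)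
      · rw [h.1] at k3; exact absurd k3 (by norm_num)
      · rw [h.1] at k3; exact absurd k3 (by norm_num)
      · have h5 := h.2.1
        rw [mF_true, Pool.Agent.L0h74.T3.m3] at h5
        split_ifs at h5
        omega
    have e1 : ∑ p ∈ (Icc 1 y).filter (fun p => p.Prime ∧ p % 12 = 11), (1 : ℝ) / p ≤
        ∑ p ∈ PT (fun p => ty true p = 1) y, (1 : ℝ) / p := by
      refine sum_le_sum_of_subset_of_nonneg ?_ fun p _ _ => nn p
      intro p hp
      rw [mem_filter, mem_Icc] at hp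
      obtain ⟨k1, k2, k3⟩ := hp
      rw [mem_PT]
      refine ⟨k1, k2, ?_⟩
      show ty true p = 1
      rw [ty_true, Pool.Agent.L0h74.T3.ty, Pool.Agent.L0h74.T3.m3, if_neg (by omega),
        if_pos (by omega)]
    linarith

/-- **S_FEWX** -/
theorem t_FEWX : S_FEWX := by
  intro f q c M V hc hcq ε hε
  obtain ⟨Cb, hCb⟩ := few_bd f
  obtain ⟨X₀, hX₀⟩ := fewG hCb hc hcq M V hε
  refine ⟨X₀, fun X hX => ?_⟩
  refine le_trans (le_of_eq ?_) (hX₀ X hX)
  congr 2
  refine filter_congr fun S _ => ?_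
  unfold kd
  convert Iff.rfl

end Pool.Agent.L0h61.XF
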